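import Pool.Agent.H3.PK.Targets

/-! # BB: normalised monomials -/

set_option autoImplicit false

namespace Pool.Agent.H86.PK

open MeasureTheory Metric Set
open Pool.Agent.H3.PK

theorem bb_spec : T_BB := by
  intro n N α hα
  constructor
  · unfold bb
    have h1 : (∏ i, (MvPolynomial.X i : MvPolynomial (Fin n) ℂ) ^ α i).IsHomogeneous (∑ i, α i) :=
      MvPolynomial.IsHomogeneous.prod _ _ _ fun i _ => MvPolynomial.isHomogeneous_X_pow i (α i)
    rw [hα] at h1
    exact h1.C_mul _
  · intro z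
    have h1 : ev (∏ i, (MvPolynomial.X i : MvPolynomial (Fin n) ℂ) ^ α i) z = ∏ i, z i ^ α i := by
      unfold ev
      simp
    have h0 : ∀ i, (0 : ℝ) ≤ (N : ℝ) / α i := fun i => by positivity
    unfold bb wt
    rw [ev_mul, ev_C, norm_mul, h1, norm_prod, Complex.norm_real,
      Real.norm_of_nonneg (Finset.prod_nonneg fun i _ => Real.rpow_nonneg (h0 i) _),
      ← Finset.prod_mul_distrib]
    refine Finset.prod_congr rfl fun i _ => ?_
    rw [show (N : ℝ) * ‖z i‖ ^ 2 / α i = (N : ℝ) / α i * ‖z i‖ ^ 2 by ring,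
      Real.mul_rpow (h0 i) (by positivity), norm_pow]
    congr 1
    rw [← Real.rpow_natCast ‖z i‖ 2, ← Real.rpow_mul (norm_nonneg _), ← Real.rpow_natCast]
    congr 1
    push_cast
    ring

end Pool.Agent.H86.PK
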